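import Pool.Agent.Q240.SD.Stm

set_option autoImplicit false

/-! # Project SD, job SZB: absolute convergence and size of the smoothed sum over the zeros -/

open Filter Topology Finset MeasureTheory

namespace Pool.Agent.Q211.SD

open Pool.Agent.Q240.SD
open Pool.Agent.Y23 (TT Fa N2 QQ Zt mu Lg)
open Pool.Agent.Q240.EW (Bump Ps)

lemma re_gau (s t u : ℝ) (w : ℂ) :
    (s * (w - t * Complex.I) ^ 2 + u * w : ℂ).re = s * (w.re ^ 2 - (w.im - t) ^ 2) + u * w.re := by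
  simp [pow_two]

lemma term_le (h : S_Psi) {ψ : ℝ → ℝ} {T s t u : ℝ} (hψ : Bump ψ) (hT : 10 ≤ T) (hs : 2 ≤ s) (hu : 0 ≤ u) (ρ : Zt) :
    ‖Ps ψ (((ρ : ℂ) - 1 / 2) / T) ^ 2 * Complex.exp (s * (((ρ : ℂ) - 1 / 2) - t * Complex.I) ^ 2 + u * ((ρ : ℂ) - 1 / 2))‖ ≤
      (2 * Real.exp (s / 4 + u / 2)) * (1 / (1 + ((ρ : ℂ).im - t) ^ 2)) := by
  set w : ℂ := (ρ : ℂ) - 1 / 2 with hw
  have hre : |w.re| ≤ 1 / 2 := Pool.Agent.Y23.half_re ρ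
  have him : w.im = (ρ : ℂ).im := by
    rw [hw]
    simp
  have hT0 : 0 < T := by linarith
  have h1 : ‖Ps ψ (w / T)‖ ≤ Real.exp (1 / 20) := by
    refine ((h ψ hψ).2.2.1 (w / T)).trans (Real.exp_le_exp.2 ?_)
    rw [Complex.div_ofReal_re, abs_div, abs_of_pos hT0, div_le_iff₀ hT0]
    linarith
  have h2 : ‖Ps ψ (w / T) ^ 2‖ ≤ 2 := by
    rw [norm_pow]
    have h3 : Real.exp (1 / 20) ^ 2 ≤ 2 := by
      rw [← Real.exp_nat_mul, ← Real.le_log_iff_exp_le (by norm_num)]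
      have := Real.log_two_gt_d9
      push_cast
      linarith
    exact (pow_le_pow_left₀ (norm_nonneg _) h1 2).trans h3
  have h3 : ‖Complex.exp (s * (w - t * Complex.I) ^ 2 + u * w)‖ ≤
      Real.exp (s / 4 + u / 2) * (1 / (1 + ((ρ : ℂ).im - t) ^ 2)) := by
    rw [Complex.norm_exp, re_gau, him]
    set y : ℝ := (ρ : ℂ).im - t with hy
    have h4 : w.re ^ 2 ≤ 1 / 4 := by
      have := sq_le_sq' (by linarith [(abs_le.1 hre).1]) (abs_le.1 hre).2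
      linarith
    have h5 : s * (w.re ^ 2 - y ^ 2) + u * w.re ≤ (s / 4 + u / 2) + -(y ^ 2) := by
      have h6 : s * w.re ^ 2 ≤ s * (1 / 4) := mul_le_mul_of_nonneg_left h4 (by linarith)
      have h7 : u * w.re ≤ u * (1 / 2) := mul_le_mul_of_nonneg_left (abs_le.1 hre).2 hu
      have h8 : 1 * y ^ 2 ≤ s * y ^ 2 := mul_le_mul_of_nonneg_right (by linarith) (sq_nonneg y)
      nlinarith
    refine (Real.exp_le_exp.2 h5).trans ?_
    rw [Real.exp_add, Real.exp_neg]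
    refine mul_le_mul_of_nonneg_left ?_ (Real.exp_pos _).le
    rw [← one_div]
    exact one_div_le_one_div_of_le (by positivity) (by
      have := Real.add_one_le_exp (y ^ 2)
      linarith)
  rw [norm_mul]
  calc ‖Ps ψ (w / T) ^ 2‖ * ‖Complex.exp (s * (w - t * Complex.I) ^ 2 + u * w)‖
      ≤ 2 * (Real.exp (s / 4 + u / 2) * (1 / (1 + ((ρ : ℂ).im - t) ^ 2))) :=
        mul_le_mul h2 h3 (norm_nonneg _) (by norm_num)
    _ = _ := by ring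

/-- SzB -/
theorem szB (h : S_Psi) : S_SzB := by
  obtain ⟨K, hK, hz⟩ := Pool.Agent.Y23.zsum_le
  refine ⟨2 * K, by positivity, fun ψ T s t u hψ hT hs hu => ?_⟩
  have hle : ∀ ρ : Zt, (mu ρ : ℝ) * ‖Ps ψ (((ρ : ℂ) - 1 / 2) / T) ^ 2 *
      Complex.exp (s * (((ρ : ℂ) - 1 / 2) - t * Complex.I) ^ 2 + u * ((ρ : ℂ) - 1 / 2))‖ ≤
      (2 * Real.exp (s / 4 + u / 2)) * ((mu ρ : ℝ) * (1 / (1 + ((ρ : ℂ).im - t) ^ 2))) := by
    intro ρ
    refine (mul_le_mul_of_nonneg_left (term_le h hψ hT hs hu ρ) (Nat.cast_nonneg _)).trans (le_of_eq ?_)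
    ring
  have hsum := (Pool.Agent.Y23.zsummable t).mul_left (2 * Real.exp (s / 4 + u / 2))
  have hS : Summable fun ρ : Zt => (mu ρ : ℝ) * ‖Ps ψ (((ρ : ℂ) - 1 / 2) / T) ^ 2 *
      Complex.exp (s * (((ρ : ℂ) - 1 / 2) - t * Complex.I) ^ 2 + u * ((ρ : ℂ) - 1 / 2))‖ :=
    Summable.of_nonneg_of_le (fun ρ => by positivity) hle hsum
  refine ⟨hS, ?_⟩
  have hn : ∀ ρ : Zt, ‖(mu ρ : ℂ) * (Ps ψ (((ρ : ℂ) - 1 / 2) / T) ^ 2 *
      Complex.exp (s * (((ρ : ℂ) - 1 / 2) - t * Complex.I) ^ 2 + u * ((ρ : ℂ) - 1 / 2)))‖ =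
      (mu ρ : ℝ) * ‖Ps ψ (((ρ : ℂ) - 1 / 2) / T) ^ 2 *
      Complex.exp (s * (((ρ : ℂ) - 1 / 2) - t * Complex.I) ^ 2 + u * ((ρ : ℂ) - 1 / 2))‖ := by
    intro ρ
    rw [norm_mul, Complex.norm_natCast]
  have h1 : ‖Sz ψ T s t u‖ ≤ ∑' ρ : Zt, (mu ρ : ℝ) * ‖Ps ψ (((ρ : ℂ) - 1 / 2) / T) ^ 2 *
      Complex.exp (s * (((ρ : ℂ) - 1 / 2) - t * Complex.I) ^ 2 + u * ((ρ : ℂ) - 1 / 2))‖ := by
    unfold Sz
    refine (norm_tsum_le_tsum_norm (hS.congr fun ρ => (hn ρ).symm)).trans (le_of_eq ?_)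
    exact tsum_congr hn
  refine h1.trans ((hS.tsum_le_tsum hle hsum).trans ?_)
  rw [tsum_mul_left]
  have h2 := mul_le_mul_of_nonneg_left (hz t) (show (0 : ℝ) ≤ 2 * Real.exp (s / 4 + u / 2) by positivity)
  refine h2.trans (le_of_eq ?_)
  unfold Lg
  ring

end Pool.Agent.Q211.SD
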